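import Mathlib
import Pool.Agent.MP_d232b3_nt.Example

/- In the function field model the exponent of the logarithmic derivative is `2 - 2 σ`. -/

set_option autoImplicit false

namespace Pool.Agent.Results.MP_d232b3_nt.FunctionField

open Polynomial Pool.Agent.MP_d232b3_nt

theorem result (F : Type) [Field F] [Fintype F] (σ : ℝ) (h1 : 1 / 2 < σ) (h2 : σ < 1) :
    ∃ c C : ℝ, 0 < c ∧ 0 < C ∧
      (∀ (k : ℕ) (χ : F[X] → ℂ), IsArchChar k χ → ¬ IsPrincipal χ → ∀ s : ℂ, s.re = σ →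
        Lfun χ s ≠ 0 ∧ ‖logDeriv (Lfun χ) s‖ ≤ C * (k : ℝ) ^ (2 - 2 * σ)) ∧
      (∀ k : ℕ, Fintype.card F < k → ∃ (χ : F[X] → ℂ) (s : ℂ), IsArchChar k χ ∧
        ¬ IsPrincipal χ ∧ s.re = σ ∧ c * (k : ℝ) ^ (2 - 2 * σ) ≤ ‖logDeriv (Lfun χ) s‖) := by
  obtain ⟨c, hc, hl⟩ := lower (F := F) h1 h2
  obtain ⟨C, hC, hu⟩ := upper (F := F) h1 h2
  exact ⟨c, C, hc, hC, fun k χ h hn s hs => ⟨(approx h hn (hs ▸ h1)).1, hu k χ h hn s hs⟩, hl⟩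

end Pool.Agent.Results.MP_d232b3_nt.FunctionField
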