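import Mathlib
import Pool.Agent.MP_d232b3_nt.Hz.Build2

/- The growth exponents of Euler products with unimodular coefficients that satisfy the Riemann
hypothesis are exactly the convex functions between `1 - σ` and `2 - 2 σ`. -/

set_option autoImplicit false

namespace Pool.Agent.Results.MP_d232b3_nt.HelsonRange

open Set Pool.Agent.MP_d232b3_nt.Hz

theorem result :
    (RiemannHypothesis → (∃ χ : ℕ →*₀ ℂ, (∀ n ≠ 0, χ n = 1) ∧ Cls χ 1 riemannZeta₁) ∧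
      ∀ σ ∈ Ioo (1 / 2 : ℝ) 1, Ex riemannZeta₁ σ = Ex riemannZeta σ) ∧
    (∀ (χ : ℕ →*₀ ℂ) (k : ℕ) (G : ℂ → ℂ), Cls χ k G → ∃ ν : ℝ → ℝ,
      (∀ σ ∈ Ioo (1 / 2 : ℝ) 1, IsLeast (Ex G σ) (ν σ)) ∧ ConvexOn ℝ (Ioo (1 / 2) 1) ν ∧
        ∀ σ ∈ Ioo (1 / 2 : ℝ) 1, 1 - σ ≤ ν σ ∧ ν σ ≤ 2 - 2 * σ) ∧
    ∀ ν : ℝ → ℝ, ConvexOn ℝ (Ioo (1 / 2) 1) ν →
      (∀ σ ∈ Ioo (1 / 2 : ℝ) 1, 1 - σ ≤ ν σ ∧ ν σ ≤ 2 - 2 * σ) →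
      ∃ (χ : ℕ →*₀ ℂ) (G : ℂ → ℂ), Cls χ 0 G ∧
        ∀ σ ∈ Ioo (1 / 2 : ℝ) 1, IsLeast (Ex G σ) (ν σ) :=
  ⟨zeta_mem zeta_grow,
    fun χ k G h => ⟨nu G, sConv sU sA sB (sLow sU sA sPer sShift sPole sLowM sCnt) χ k G h⟩,
    exist_Fin (sPlan sLines sW (sStep sCnt)) sEx (sBuild (sGen sMom) sAbel) sW sEul (sAn sLoc)⟩

end Pool.Agent.Results.MP_d232b3_nt.HelsonRange
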