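import Mathlib
import Pool.Agent.Mg.Xd232b3.Gafd84c

/- The constant `σ / (1 - σ)` in the bound for the logarithmic derivative of zeta under RH,
uniformly in `σ`; at `σ = 1` the main term is the limit of the general expression. -/

set_option autoImplicit false

namespace Pool.Agent.Results.MP_d232b3_nt.LogDerivConstant

open Complex Pool.Agent.MP_d232b3_nt.Z

theorem result (hRH : RiemannHypothesis) (σ₀ ε : ℝ) (h₀ : 1 / 2 < σ₀) (hε : 0 < ε) :
    ∃ T : ℝ, ∀ t : ℝ, T ≤ t → ∀ σ : ℝ, σ₀ ≤ σ → σ ≤ 2 →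
      ‖logDeriv riemannZeta (σ + t * I)‖ ≤
        (if σ = 1 then 2 * Real.log (Real.log t) - 1 - Real.eulerMascheroniConstant
          else σ / (1 - σ) * Real.log t ^ (2 - 2 * σ) - (logDeriv riemannZeta σ).re) +
        ε * Real.log t ^ (2 - 2 * σ) := by
  obtain ⟨T₁, hT₁⟩ := u_zeta hRH σ₀ ε h₀ hε
  obtain ⟨T₂, hT₂⟩ := corC hRH (u_all hRH) ε hε
  refine ⟨max T₁ T₂, fun t ht σ a b => ?_⟩
  split_ifs with c
  · subst c
    simpa using hT₂ t ((le_max_right _ _).trans ht)
  · exact hT₁ t ((le_max_left _ _).trans ht) σ a b c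

end Pool.Agent.Results.MP_d232b3_nt.LogDerivConstant
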