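import Mathlib
import Pool.Agent.Mg.Xd232b3.Gafd84c

/- The constant `σ / (2 (1 - σ))` in the bound for the logarithm of zeta under RH. -/

set_option autoImplicit false

namespace Pool.Agent.Results.MP_d232b3_nt.LogZetaConstant

open Complex Pool.Agent.MP_d232b3_nt.Z

theorem result (hRH : RiemannHypothesis) (σ ε : ℝ) (h₁ : 1 / 2 < σ) (h₂ : σ < 1) (hε : 0 < ε) :
    ∃ T : ℝ, ∀ t : ℝ, T ≤ t →
      |Real.log ‖riemannZeta (σ + t * I)‖| ≤
        (σ / (2 * (1 - σ)) + ε) * Real.log t ^ (2 - 2 * σ) / Real.log (Real.log t) :=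
  corB hRH logS (u_all hRH) σ ε h₁ h₂ hε

end Pool.Agent.Results.MP_d232b3_nt.LogZetaConstant
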